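import Pool.Agent.MTate.Final

/-!
# MP_b13df7_nt, Q1: the Mazur-Tate vanishing order conjecture is false as posed

The curve `E : y^2 = x^3 - 2 x^2 - 4 x` (conductor 320) has split multiplicative reduction at `5`, the
point `(-1, 1)` of infinite order, and the modular symbols `λ(1,5) = λ(4,5) = 1`,
`λ(2,5) = λ(3,5) = -1`.  So for `S_m = {5}`, `M = 5` the ring `R` is `ℤ` and `θ_5 = [1] - [2]` is in
`I` and not in `I^2`, while `r + rank E(ℚ) ≥ 2`.
-/

namespace Pool.Agent.Results.MP_b13df7_nt.NotMazurTate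

open Pool.Agent.MTate

/-- The element for `M = 5`: the ring is `ℤ` and `θ ∉ I^2` (from helper59). -/
theorem explicit : ∃ l : GM 5 → ℚ, IsLam E l ∧ RR l = (Int.castRingHom ℚ).range ∧
    theta l ∉ augI (RR l) (GM 5) ^ 2 := by
  obtain ⟨l, hl⟩ := exists_gen 5 rfl
  refine ⟨l, ?_, ?_, not_mem_gen 5 rfl l hl (le_refl 2)⟩
  · intro u
    rw [hl u]
    exact lam_key _ rfl u
  · apply le_antisymm
    · rw [Subring.closure_le]
      rintro _ ⟨g, rfl⟩
      induction g using QuotientGroup.induction_on with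
      | H u =>
        rw [hl u]
        split_ifs
        · exact ⟨1, by simp⟩
        · exact ⟨-1, by simp⟩
    · rintro _ ⟨m, rfl⟩
      simp

/-- The explicit counterexample and the negation of Q1. -/
theorem result :
    (IsGlobalMinimal E ∧ HasSplitMult E 5 ∧ 1 ≤ Module.rank ℤ (overQ E).toAffine.Point ∧
      lam E 1 5 = 1 ∧ lam E 2 5 = -1 ∧ lam E 3 5 = -1 ∧ lam E 4 5 = 1 ∧
      ∃ l : GM 5 → ℚ, IsLam E l ∧ RR l = (Int.castRingHom ℚ).range ∧
        theta l ∉ augI (RR l) (GM 5) ^ 2) ∧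
    ¬ MazurTate :=
  ⟨⟨E_minimal, E_split, rank_E, lam_E_one, lam_E_two, lam_E_three, lam_E_four, explicit⟩, main⟩

end Pool.Agent.Results.MP_b13df7_nt.NotMazurTate
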